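import Pool.Agent.MP_ea150c_mp.H99.G4a

/-! The trace formula for the frame of a model. -/

set_option autoImplicit false

namespace Pool.Agent.MP_ea150c_mp.H99

open Pool.Agent.MP_ea150c_mp.H49 Pool.Agent.MP_ea150c_mp.H45

noncomputable section

namespace G4Aux

section Idx
variable {σ ι Γ : Type} [Fintype σ] [DecidableEq σ] [Fintype ι] [AddCommGroup Γ]

/-- the shift of the exponents -/
def dz (z : Option σ) : σ → ℤ := fun x => if z = some x then 1 else 0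

/-- the index sets -/
def PN (tor : σ → Prop) (wt : σ → Γ) (om : ι → Γ) (m : ℕ) (z : Option σ)
    (a : (σ → ℤ) × (ι → ℕ)) : Prop :=
  (∀ x, ¬ tor x → 0 ≤ a.1 x + (dz z x - 1)) ∧ ∑ x, a.1 x • wt x = ∑ i, (a.2 i + 1) • om i ∧
    ∑ i, a.2 i ≤ m

theorem adm {tor : σ → Prop} {wt : σ → Γ} {om : ι → Γ} {m M₀ : ℕ} (hm : M₀ ≤ m) {z : Option σ}
    {N : Finset ((σ → ℤ) × (ι → ℕ))} (hN : ∀ a, a ∈ N ↔ PN tor wt om m z a) :
    Adm tor wt om M₀ z N := by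
  refine ⟨fun a ha x hx => ?_, fun a h1 h2 h3 h4 => (hN a).2 ⟨fun x hx => ?_, h3, h4.trans hm⟩⟩
  · have := ((hN a).1 ha).1 x hx
    unfold dz at this
    split_ifs at this with h
    · exact ⟨by omega, fun h' => (h' h).elim⟩
    · exact ⟨by omega, fun _ => by omega⟩
  · unfold dz
    split_ifs with h
    · have := h1 x
      omega
    · have := h2 x hx h
      omega

theorem wsum (wt : σ → Γ) (n d : σ → ℤ) :
    ∑ x, (n + (d - 1)) x • wt x = ∑ x, n x • wt x + ∑ x, d x • wt x - ∑ x, wt x := by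
  simp only [Pi.add_apply, Pi.sub_apply, Pi.one_apply, add_smul, sub_smul, one_smul,
    Finset.sum_add_distrib, Finset.sum_sub_distrib]
  abel

end Idx

variable {I τ ι : Type} [LinearOrder I] [Fintype I] [Fintype τ] [DecidableEq τ] [Fintype ι]
  [DecidableEq ι] {M : Model I τ ι} {p : ℕ} [Fact p.Prime]

/-- the inverted variables on the open `J` -/
def tJ (τ : Type) (J : Finset I) (j : I) (x : Sl τ j) : Prop := ∃ v ∈ J, x.1 = Sum.inl (v, 0)

theorem rel (J : Finset I) (j : I) (u : Sl τ j → ℤ) :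
    (u ∈ Mon (torS τ j) ∧ ∀ v, v ∉ J → 0 ≤ u (cvS τ j v)) ↔ ∀ x, ¬ tJ τ J j x → 0 ≤ u x := by
  constructor
  · rintro ⟨h1, h2⟩ x hx
    cases ht : torS τ j x
    · exact h1 x ht
    · obtain ⟨⟨v, t⟩ | t, hx'⟩ := x
      · simp only [torS, torV, decide_eq_true_eq] at ht
        subst ht
        exact h2 v fun hv => hx ⟨v, hv, rfl⟩
      · simp [torS, torV] at ht
  · intro h
    refine ⟨fun x hx => h x ?_, fun v hv => h _ ?_⟩
    · rintro ⟨v, -, e⟩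
      simp [torS, e, torV] at hx
    · rintro ⟨v', hv', e⟩
      simp only [cvS, Sum.inl.injEq, Prod.mk.injEq, and_true] at e
      exact hv (e ▸ hv')

theorem finN (g1 : G1) (h : M.Good) (J : Finset I) (j : I) (m : ℕ) (z : Option (Sl τ j)) :
    ∃ N : Finset ((Sl τ j → ℤ) × (ι → ℕ)),
      ∀ a, a ∈ N ↔ PN (tJ τ J j) (fun y => M.wtv y.1) M.om m z a := by
  have hf := (g1 I τ ι M h ℤ j).2.2.2.2.2.2.2.1
  have : {a | PN (tJ τ J j) (fun y => M.wtv y.1) M.om m z a}.Finite := by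
    refine ((Fintype.piFinset fun _ : ι => Finset.range (m + 1)).finite_toSet.biUnion fun l _ =>
      (hf (∑ i, (l i + 1) • M.om i + ∑ x, dz z x • M.wtv x.1 - ∑ x : Sl τ j, M.wtv x.1)).image
        fun u => (u - (dz z - 1), l)).subset ?_
    rintro ⟨n, l⟩ ⟨h1, h2, h3⟩
    simp only [Set.mem_iUnion]
    refine ⟨l, Fintype.mem_piFinset.2 fun i => Finset.mem_range.2 (Nat.lt_succ_of_le
      ((Finset.single_le_sum (fun _ _ => Nat.zero_le _) (Finset.mem_univ i)).trans h3)),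
      n + (dz z - 1), ⟨((rel J j _).2 h1).1, ?_⟩, by simp⟩
    rw [wsum (fun y : Sl τ j => M.wtv y.1), h2]
  exact ⟨this.toFinset, fun a => this.mem_toFinset⟩

theorem c_mul (j : I) : tX (torS τ j) ℤ_[p] (cS τ j) ^ 2 * tXi (torS τ j) ℤ_[p] (cS τ j) ^ 2 = 1 := by
  rw [← mul_pow, tX_mul_tXi _ _ (by simp [torS, torV, cS]), one_pow]

theorem chi_apply (j : I) (a : Ainv ℤ_[p] I τ) :
    chi p τ j a = tX (torS τ j) ℤ_[p] (cS τ j) ^ 2 * rhoA ℤ_[p] τ j a := rfl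

theorem chiInv_apply (j : I) (z : Tor ℤ_[p] (torS τ j)) :
    chiInv p τ j z = kapS ℤ_[p] τ j (tXi (torS τ j) ℤ_[p] (cS τ j) ^ 2 * z) := rfl

theorem inv1 (g1 : G1) (h : M.Good) (j : I) (a : Ainv ℤ_[p] I τ) :
    chiInv p τ j (chi p τ j a) = a := by
  rw [chiInv_apply, chi_apply, ← mul_assoc, mul_comm (_ ^ 2), c_mul, one_mul,
    (g1 I τ ι M h ℤ_[p] j).2.1]

theorem inv2 (g1 : G1) (h : M.Good) (j : I) (z : Tor ℤ_[p] (torS τ j)) :
    chi p τ j (chiInv p τ j z) = z := by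
  rw [chiInv_apply, chi_apply, (g1 I τ ι M h ℤ_[p] j).1, ← mul_assoc, c_mul, one_mul]

theorem mem_chi (g1 : G1) (s1 : S1) (h : M.Good) {J : Finset I} {j : I} (hj : j ∈ J) (w : Gam I)
    (l : ι → ℕ) (a : Ainv ℤ_[p] I τ) :
    a ∈ M.Ap ℤ_[p] J (w + M.w0 + ∑ i, l i • M.om i) ↔
      chi p τ j a ∈ Tp (torS τ j) (cvS τ j) (fun y => M.wtv y.1) ℤ_[p] J
        (∑ i, (l i + 1) • M.om i + w - ∑ x : Sl τ j, M.wtv x.1) := by
  obtain ⟨-, h1, h2, -⟩ := (s1 ℤ_[p] (Sl τ j) (torS τ j)).2.2.2.2.2.2.2.2 I (Gam I) (cvS τ j)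
    (fun y => M.wtv y.1) J
  have hi : tXi (torS τ j) ℤ_[p] (cS τ j) ∈
      Tp (torS τ j) (cvS τ j) (fun y => M.wtv y.1) ℤ_[p] J (-M.wtv (Sum.inl (j, 0))) := by
    rw [tXi, monoZ, dif_pos (single_neg_mem _ _ (by simp [torS, torV, cS]))]
    refine single_mem_supp _ _ ⟨fun v hv => ?_, ?_⟩
    · have : cvS τ j v ≠ cS τ j := fun e => hv (by
        simp only [cvS, cS, Subtype.mk.injEq, Sum.inl.injEq, Prod.mk.injEq, and_true] at e
        exact e ▸ hj)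
      simp [Pi.single_eq_of_ne this]
    · simp only
      rw [Finset.sum_eq_single (cS τ j)]
      · simp [cS]
      · intro y _ hy
        rw [Pi.single_eq_of_ne hy, zero_smul]
      · simp
  have e : ∑ i, (l i + 1) • M.om i + w - ∑ x : Sl τ j, M.wtv x.1 =
      M.wtv (Sum.inl (j, 0)) + M.wtv (Sum.inl (j, 0)) + (w + M.w0 + ∑ i, l i • M.om i) := by
    rw [(g1 I τ ι M h ℤ j).2.2.2.2.2.2.2.2.2, Model.w0, two_nsmul]
    simp only [succ_nsmul, Finset.sum_add_distrib]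
    abel
  rw [(g1 I τ ι M h ℤ_[p] j).2.2.2.1 J _ a hj, e, chi_apply]
  constructor
  · intro ha
    rw [pow_two]
    exact h2 _ _ _ _ (h2 _ _ _ _ (h1 (cS τ j)) (h1 (cS τ j))) ha
  · intro ha
    have := h2 _ _ _ _ (h2 _ _ _ _ hi hi) ha
    rwa [← pow_two, ← mul_assoc, mul_comm (_ ^ 2), c_mul, one_mul,
      show ∀ a b : Gam I, -a + -a + (a + a + b) = b from fun a b => by abel] at this

theorem tr_one (g1 : G1) (s1 : S1) (s1p : S1p) (h : M.Good) {J : Finset I} {j : I} (hj : j ∈ J)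
    (z : Option (Sl τ j)) (m S : ℕ) (w : Gam I) (hw : w = ∑ x, dz z x • M.wtv x.1)
    (a : Ainv ℤ_[p] I τ) (t : Mon (torS τ j)) (ht : ∀ x, t.1 x = (p - 1 : ℤ) * dz z x)
    (ha : rhoA ℤ_[p] τ j a = AddMonoidAlgebra.single t 1)
    (Φ : (M.frame p h).Bl J w m →ₗ[ℤ_[p]] (M.frame p h).Bl J w m)
    (hΦ : (M.frame p h).Approx J j w m S a Φ) (N : Finset ((Sl τ j → ℤ) × (ι → ℕ)))
    (hN : ∀ a, a ∈ N ↔ PN (tJ τ J j) (fun y => M.wtv y.1) M.om m z a) (k : ℕ) :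
    (p : ℤ_[p]) ^ S ∣ LinearMap.trace ℤ_[p] _ (Φ ^ k) - trk p (M.fS j) N k := by
  refine key (dN := _) (fun u l => ((∀ v, v ∉ J → 0 ≤ u (cvS τ j v)) ∧ ∑ x, u x • M.wtv x.1 =
    ∑ i, (l i + 1) • M.om i + w - ∑ x : Sl τ j, M.wtv x.1) ∧ ∑ i, l i ≤ m) _ (chi p τ j)
    (chiInv p τ j) (inv1 g1 h j) (inv2 g1 h j) (dz z - 1) N (fun a => ?_) (fun b => ?_) Φ
    (ent p (M.fS j)) _ (fun a' b' u' u β hu' hu hβ => ?_) k
  · rw [hN, ← and_assoc, ← and_assoc, rel, wsum (fun y : Sl τ j => M.wtv y.1), ← hw, sub_left_inj,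
      add_left_inj, and_assoc]
    rfl
  · refine forall_congr' fun l => ?_
    simp only [Set.mem_univ, true_imp_iff]
    by_cases hl : ∑ i, l i ≤ m
    · simp only [hl, if_true, and_true]
      exact mem_chi g1 s1 h hj w l _
    · simp only [hl, if_false, and_false]
      constructor
      · intro hb
        rw [(Submodule.mem_bot _).1 hb, map_zero]
        exact zero_mem _
      · intro hb
        have : chi p τ j (b l) = 0 := by
          ext u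
          by_contra hu
          exact hb u hu
        rw [← inv1 g1 h j (b l), this, map_zero]
        exact zero_mem _
  · obtain ⟨y, -, hy⟩ := hΦ β
    have e1 : cw p (chi p τ j) (a • (β : PS ι (Ainv ℤ_[p] I τ))) =
        Pi.single b'.2 (AddMonoidAlgebra.single (t + u) 1) := by
      funext l
      show chi p τ j (a * (β : PS ι (Ainv ℤ_[p] I τ)) l) = _
      rw [chi_apply, map_mul, mul_left_comm, ← chi_apply, hβ, ha]
      by_cases hl : l = b'.2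
      · subst hl
        rw [Pi.single_eq_same, Pi.single_eq_same, inv2 g1 h, AddMonoidAlgebra.single_mul_single,
          mul_one]
      · rw [Pi.single_eq_of_ne hl, Pi.single_eq_of_ne hl, map_zero, mul_zero]
    have e2 : (chi p τ j ((M.frame p h).Ψ j (a • (β : PS ι (Ainv ℤ_[p] I τ))) a'.2)).coeff u' =
        ent p (M.fS j) a' b' := by
      show (chi p τ j (chiInv p τ j (stdPsi p _ (fun i => rhoA ℤ_[p] τ j (M.fA ℤ_[p] h i))
        (cw p (chi p τ j) (a • (β : PS ι (Ainv ℤ_[p] I τ)))) a'.2))).coeff u' = _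
      rw [inv2 g1 h, e1]
      simp only [(g1 I τ ι M h ℤ_[p] j).2.2.2.2.1]
      refine coeff_stdPsi _ s1p _ a' b' _ u' fun x => ?_
      have h1 : (t + u).1 x = t.1 x + u.1 x := rfl
      rw [h1, ht, hu, hu']
      simp only [Pi.add_apply, Pi.sub_apply, Pi.one_apply]
      ring
    have e3 := congrArg (fun b : PS ι (Ainv ℤ_[p] I τ) => (chi p τ j (b a'.2)).coeff u') hy
    simp only [LinearMap.lsmul_apply, Pi.smul_apply, Pi.sub_apply, map_smul, map_sub,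
      AddMonoidAlgebra.coeff_smul, AddMonoidAlgebra.coeff_sub, Finsupp.smul_apply,
      Finsupp.sub_apply, smul_eq_mul] at e3
    rw [← e2]
    exact ⟨_, e3.symm⟩

theorem tr_none (g1 : G1) (s1 : S1) (s1p : S1p) (h : M.Good) {J : Finset I} {j : I} (hj : j ∈ J)
    (m S : ℕ) (Φ : (M.frame p h).Bl J 0 m →ₗ[ℤ_[p]] (M.frame p h).Bl J 0 m)
    (hΦ : (M.frame p h).Approx J j 0 m S 1 Φ) (N : Finset ((Sl τ j → ℤ) × (ι → ℕ)))
    (hN : ∀ a, a ∈ N ↔ PN (tJ τ J j) (fun y => M.wtv y.1) M.om m none a) (k : ℕ) :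
    (p : ℤ_[p]) ^ S ∣ LinearMap.trace ℤ_[p] _ (Φ ^ k) - trk p (M.fS j) N k :=
  tr_one g1 s1 s1p h hj none m S 0 (by simp [dz]) 1 0 (by simp [dz]) (map_one _) Φ hΦ N hN k

theorem tr_some (g1 : G1) (s1 : S1) (s1p : S1p) (h : M.Good) {J : Finset I} {j : I} (hj : j ∈ J)
    (x : Sl τ j) (m S : ℕ) (Φ : (M.frame p h).Bl J ((M.frame p h).wt j x) m →ₗ[ℤ_[p]]
      (M.frame p h).Bl J ((M.frame p h).wt j x) m)
    (hΦ : (M.frame p h).Approx J j ((M.frame p h).wt j x) m S ((M.frame p h).x j x ^ (p - 1)) Φ)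
    (N : Finset ((Sl τ j → ℤ) × (ι → ℕ)))
    (hN : ∀ a, a ∈ N ↔ PN (tJ τ J j) (fun y => M.wtv y.1) M.om m (some x) a) (k : ℕ) :
    (p : ℤ_[p]) ^ S ∣ LinearMap.trace ℤ_[p] _ (Φ ^ k) - trk p (M.fS j) N k := by
  refine tr_one g1 s1 s1p h hj (some x) m S _ ?_ _ ((p - 1) • ⟨_, single_mem (torS τ j) x⟩)
    (fun y => ?_) ?_ Φ hΦ N hN k
  · show M.wtv x.1 = _
    simp [dz]
  · have h1 : 1 ≤ p := (Fact.out : p.Prime).one_le
    have : ((p - 1 : ℕ) : ℤ) = p - 1 := by omega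
    simp [dz, Pi.single_apply, this, eq_comm]
  · show rhoA ℤ_[p] τ _ (kapS ℤ_[p] τ _ (tX _ ℤ_[p] x) ^ (p - 1)) = _
    rw [map_pow, (g1 I τ ι M h ℤ_[p] _).1, tX, monoZ, dif_pos (single_mem _ x),
      AddMonoidAlgebra.single_pow, one_pow]

theorem fin_alg {R : Type} [CommRing R] {d e c q n t₁ t₂ t₃ u₁ u₂ u₃ : R} (hd : d ∣ e)
    (h : d ∣ c - (t₁ - q * (t₂ + n * t₃))) (h1 : e ∣ u₁ - t₁) (h2 : e ∣ u₂ - t₂)
    (h3 : e ∣ u₃ - t₃) : d ∣ c - (u₁ - q * (u₂ + n * u₃)) := by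
  have := dvd_sub h (hd.trans (dvd_sub h1 ((dvd_add h2 (h3.mul_left n)).mul_left q)))
  refine (congrArg (d ∣ ·) ?_).mp this
  ring

theorem card_sl (j : I) : Fintype.card (Var I τ) = Fintype.card (Sl τ j) + 2 := by
  rw [Fintype.card_subtype]
  have e : (Finset.univ.filter fun x : Var I τ => x ≠ Sum.inl (j, 1) ∧ x ≠ Sum.inl (j, 2)) =
      Finset.univ \ {Sum.inl (j, 1), Sum.inl (j, 2)} := by
    ext x
    simp
  rw [e, ← Finset.card_univ, ← Finset.card_sdiff_add_card_eq_card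
    (Finset.subset_univ {(Sum.inl (j, 1) : Var I τ), Sum.inl (j, 2)}), Finset.card_pair (by simp)]

end G4Aux

open G4Aux

theorem g4 (g1 : G1) (k5 : K5) (s1 : S1) (s1p : S1p) : G4 := by
  intro I τ ι _ _ _ _ _ _ M h p _ hp c hc S
  obtain ⟨M₀, hM⟩ := k5 p hp S
  refine ⟨M₀, fun m hm J hJ Φ Φ' Φx h1 h2 h3 k hk => ?_⟩
  have hj : J.min' hJ ∈ J := J.min'_mem hJ
  obtain ⟨N, hN⟩ := finN g1 h J (J.min' hJ) (m + 1) none
  obtain ⟨N', hN'⟩ := finN g1 h J (J.min' hJ) m none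
  choose Nx hNx using fun x => finN g1 h J (J.min' hJ) m (some x)
  obtain ⟨F, _, _, hF, hcJ⟩ := hc J k hk
  have hK := hM _ ι (Gam I) (fun n g hn hg => (smul_eq_zero.1 hg).resolve_left hn)
    (tJ τ J (J.min' hJ)) (fun y => M.wtv y.1) M.om (M.fS _)
    (g1 I τ ι M h ℤ (J.min' hJ)).2.2.2.2.2.2.1 N N' Nx (adm (by omega) hN) (adm hm hN')
    (fun x => adm hm (hNx x)) k hk F hF
  have a4 := Finset.dvd_sum (s := Finset.univ) fun x _ =>
    tr_some g1 s1 s1p h hj x m S (Φx x) (h3 x) (Nx x) (hNx x) k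
  rw [Finset.sum_sub_distrib] at a4
  have e1 : M.cntJ F J = cnt (tJ τ J (J.min' hJ)) (M.fS (J.min' hJ)) F := dif_pos hJ
  have e2 : (-1 : ℤ_[p]) ^ Fintype.card (Var I τ) = (-1) ^ Fintype.card (Sl τ (J.min' hJ)) := by
    rw [card_sl (J.min' hJ), pow_add, neg_one_sq, mul_one]
  rw [e1, e2] at hcJ
  rw [← hcJ] at hK
  exact fin_alg (pow_dvd_pow _ (min_le_left _ _)) hK (tr_none g1 s1 s1p h hj _ S Φ h1 N hN k) a4
    (tr_none g1 s1 s1p h hj _ S Φ' h2 N' hN' k)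

end

end Pool.Agent.MP_ea150c_mp.H99
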