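import Pool.Agent.MP_ea150c_mp.H49.SpecF

/-! The two defects of the homotopies lie in `X`. -/

set_option autoImplicit false

namespace Pool.Agent.MP_ea150c_mp.H99

open Pool.Agent.MP_ea150c_mp.H49 Pool.Agent.MP_ea150c_mp.H49.FrameData

noncomputable section

namespace F3bAux
variable {p : ℕ} [Fact p.Prime] {A B Γ I ι : Type} {σ : I → Type}
  [CommRing A] [Algebra ℤ_[p] A] [AddCommGroup B] [Module A B] [Module ℤ_[p] B]
  [IsScalarTower ℤ_[p] A B] [AddCommGroup Γ] [LinearOrder I] [Fintype I] [Fintype ι]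
  [DecidableEq ι] [∀ j, Fintype (σ j)] [∀ j, DecidableEq (σ j)]
  {F : FrameData p A B Γ I ι σ}

theorem mem_sm {O E : Type} [CommRing O] [AddCommGroup E] [Module O E] {c : O}
    {M : Submodule O E} {x : E} : x ∈ sm c M ↔ ∃ y ∈ M, c • y = x := Submodule.mem_map

theorem mOp_apply (b : B) (r : A) : mOp ℤ_[p] A b r = r • b := rfl

/-- `P - m_(P 1)` -/
def vL : (A →ₗ[ℤ_[p]] B) →ₗ[ℤ_[p]] (A →ₗ[ℤ_[p]] B) where
  toFun P := P - mOp ℤ_[p] A (P 1)
  map_add' _ _ := by ext; simp [mOp_apply]; abel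
  map_smul' c P := by
    ext r
    have h : r • c • P 1 = c • (r • P 1) := smul_comm _ _ _
    simp [mOp_apply, h, smul_sub]

theorem vL_apply (P : A →ₗ[ℤ_[p]] B) (r : A) : vL P r = P r - r • P 1 := rfl

/-- the elements approximated in `X` -/
def AX (F : FrameData p A B Γ I ι σ) (J : Finset I) :
    Submodule ℤ_[p] ((A →ₗ[ℤ_[p]] B) × (ι → B)) :=
  ⨅ S, (⨆ l, sm ((p : ℤ_[p]) ^ nu l) (F.X J l)) ⊔ F.WCt J S

theorem mem_AX {J : Finset I} {z : (A →ₗ[ℤ_[p]] B) × (ι → B)} : z ∈ AX F J ↔ F.AppX J z :=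
  Submodule.mem_iInf _

theorem transfer {J : Finset I} {w : Γ} (T : (A →ₗ[ℤ_[p]] B) →ₗ[ℤ_[p]] ((A →ₗ[ℤ_[p]] B) × (ι → B)))
    (n : ℕ) (ha : ∀ l, ∀ P ∈ F.L J w l, T P ∈ F.X J (l + n))
    (hb : ∀ S, ∀ P ∈ F.WC J w S, T P ∈ F.WCt J S) {R : A →ₗ[ℤ_[p]] B} (hR : F.AppL J w R) :
    ((p : ℤ_[p]) ^ nu n) • T R ∈ AX F J := by
  refine mem_AX.2 fun S => ?_
  obtain ⟨P, hP, Q, hQ, rfl⟩ := Submodule.mem_sup.1 (hR S)
  rw [map_add, smul_add]
  refine Submodule.add_mem_sup ?_ (Submodule.smul_mem _ _ (hb S Q hQ))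
  refine Submodule.iSup_induction (motive := fun P => ((p : ℤ_[p]) ^ nu n) • T P ∈
    ⨆ l, sm ((p : ℤ_[p]) ^ nu l) (F.X J l)) _ hP ?_ (by simp) ?_
  · intro l P hP
    obtain ⟨P', h, rfl⟩ := mem_sm.1 hP
    refine Submodule.mem_iSup_of_mem (l + n) (mem_sm.2
      ⟨((p : ℤ_[p]) ^ (nu n + nu l - nu (l + n))) • T P', Submodule.smul_mem _ _ (ha l P' h), ?_⟩)
    rw [map_smul, smul_smul, smul_smul, ← pow_add, ← pow_add]
    congr 2
    unfold nu
    omega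
  · intro P Q hP hQ
    rw [map_add, smul_add]
    exact Submodule.add_mem _ hP hQ

theorem base_mem {J : Finset I} {w : Γ} {l : ℕ} {j : I} {i : σ j} {b : B} (hj : j ∈ J)
    (hb : b ∈ F.Bl J (w + F.wt j i) l) : F.D j i ∘ₗ mOp ℤ_[p] A b ∈ F.L J w (l + 1) :=
  Submodule.subset_span ⟨l + 1, le_rfl, Word.base j i w l b hj hb⟩

theorem one_mem (hL : F.AxL) (h1 : F.F1) {J : Finset I} {w : Γ} {l : ℕ} {P : A →ₗ[ℤ_[p]] B}
    (hP : P ∈ F.L J w l) : P 1 ∈ F.Bl J w l := by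
  have := h1.2.2.1 J J w 0 l P 1 le_rfl hP (hL.one J)
  rwa [add_zero] at this

theorem dv (hL : F.AxL) (h1 : F.F1) {J : Finset I} {w : Γ} {n : ℕ} {j : I} {i : σ j} (hj : j ∈ J)
    {Y : A →ₗ[ℤ_[p]] B} (hY : Y ∈ (F.L J (w + F.wt j i) n).map vL) :
    F.D j i ∘ₗ Y ∈ (F.L J w (n + 1)).map vL := by
  obtain ⟨P, hP, rfl⟩ := hY
  refine ⟨F.D j i ∘ₗ vL P, ?_, ?_⟩
  · have e : F.D j i ∘ₗ vL P = F.D j i ∘ₗ P - F.D j i ∘ₗ mOp ℤ_[p] A (P 1) :=
      LinearMap.comp_sub _ _ _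
    rw [e]
    exact Submodule.sub_mem _ (h1.2.2.2.1 J w n j i P hj hP) (base_mem hj (one_mem hL h1 hP))
  · ext r
    simp [vL_apply]

theorem gen1 (h1 : F.F1) {J : Finset I} {n : ℕ} {j : I} {i : σ j} (hj : j ∈ J)
    {Y : A →ₗ[ℤ_[p]] B} (hY : Y ∈ (F.L J (0 + F.wt j i) n).map vL) :
    ((F.D j i ∘ₗ Y, 0) : (A →ₗ[ℤ_[p]] B) × (ι → B)) ∈ F.X J (n + 1) := by
  obtain ⟨P, hP, rfl⟩ := hY
  rw [zero_add] at hP
  rcases Nat.eq_zero_or_pos n with rfl | hn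
  · rw [h1.2.1] at hP
    rw [(Submodule.mem_bot _).1 hP, map_zero, LinearMap.comp_zero]
    exact Submodule.zero_mem _
  · exact Submodule.subset_span (Or.inl ⟨j, hj, i, n, hn, le_rfl, P, hP, rfl⟩)

theorem qv (hL : F.AxL) (h1 : F.F1) {J : Finset I} {n : ℕ} (s : List (Σ j, σ j))
    (hs : ∀ a ∈ s, a.1 ∈ J) : ∀ (w : Γ) (Y : A →ₗ[ℤ_[p]] B),
      Y ∈ (F.L J (w + (s.map fun a => F.wt a.1 a.2).sum) n).map vL →
      F.Qw s ∘ₗ Y ∈ (F.L J w (n + s.length)).map vL := by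
  induction s with
  | nil => intro w Y hY; simpa [Qw] using hY
  | cons a s ih =>
    intro w Y hY
    rw [List.map_cons, List.sum_cons, ← add_assoc] at hY
    exact dv hL h1 (hs a List.mem_cons_self)
      (ih (fun b hb => hs b (List.mem_cons_of_mem _ hb)) _ Y hY)

theorem wc_v (hL : F.AxL) {J : Finset I} {w : Γ} {S : ℕ} {P : A →ₗ[ℤ_[p]] B}
    (hP : P ∈ F.WC J w S) : vL P ∈ F.WC J w S := by
  intro J' h w' r hr
  refine Submodule.sub_mem _ (hP J' h w' r hr) ?_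
  obtain ⟨c, hc, e⟩ := mem_sm.1 (hP J' h 0 1 (hL.one J'))
  refine mem_sm.2 ⟨r • c, ?_, ?_⟩
  · have := hL.smulH J' _ _ r c hr hc
    rwa [add_zero, add_comm] at this
  · rw [mOp_apply, ← e, smul_comm]

theorem wc_D (hC : F.AxC) {J : Finset I} {w : Γ} {S : ℕ} {j : I} {i : σ j} (hj : j ∈ J)
    {P : A →ₗ[ℤ_[p]] B} (hP : P ∈ F.WC J (w + F.wt j i) S) : F.D j i ∘ₗ P ∈ F.WC J w S := by
  intro J' h w' r hr
  obtain ⟨c, hc, e⟩ := mem_sm.1 (hP J' h w' r hr)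
  refine mem_sm.2 ⟨F.D j i c, ?_, ?_⟩
  · have := hC.DH J' j i _ c (h hj) hc
    rwa [show w + F.wt j i + w' - F.wt j i = w + w' by abel] at this
  · rw [LinearMap.comp_apply, ← e, map_smul]

theorem wc_Q (hC : F.AxC) {J : Finset I} {S : ℕ} (s : List (Σ j, σ j)) (hs : ∀ a ∈ s, a.1 ∈ J) :
    ∀ (w : Γ) (P : A →ₗ[ℤ_[p]] B), P ∈ F.WC J (w + (s.map fun a => F.wt a.1 a.2).sum) S →
      F.Qw s ∘ₗ P ∈ F.WC J w S := by
  induction s with
  | nil => intro w Y hY; simpa [Qw] using hY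
  | cons a s ih =>
    intro w Y hY
    rw [List.map_cons, List.sum_cons, ← add_assoc] at hY
    exact wc_D hC (hs a List.mem_cons_self)
      (ih (fun b hb => hs b (List.mem_cons_of_mem _ hb)) _ Y hY)

theorem wct {J : Finset I} {S : ℕ} {P : A →ₗ[ℤ_[p]] B} (hP : P ∈ F.WC J 0 S) :
    ((P, 0) : (A →ₗ[ℤ_[p]] B) × (ι → B)) ∈ F.WCt J S :=
  ⟨hP, Submodule.zero_mem _⟩

theorem appQ (hL : F.AxL) (hC : F.AxC) (h1 : F.F1) {J : Finset I} (s : List (Σ j, σ j))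
    (hne : s ≠ []) (hs : ∀ a ∈ s, a.1 ∈ J) {R : A →ₗ[ℤ_[p]] B}
    (hR : F.AppL J (s.map fun a => F.wt a.1 a.2).sum R) :
    ((p : ℤ_[p]) ^ nu s.length) • ((F.Qw s ∘ₗ vL R, 0) : (A →ₗ[ℤ_[p]] B) × (ι → B)) ∈ AX F J := by
  refine transfer (LinearMap.inl ℤ_[p] _ _ ∘ₗ LinearMap.llcomp ℤ_[p] A B B (F.Qw s) ∘ₗ vL)
    s.length (fun l P hP => ?_) (fun S P hP => ?_) hR
  · obtain ⟨a, s, rfl⟩ := List.exists_cons_of_ne_nil hne
    refine gen1 h1 (hs a List.mem_cons_self)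
      (qv hL h1 s (fun b hb => hs b (List.mem_cons_of_mem _ hb)) _ _ ⟨P, ?_, rfl⟩)
    rwa [zero_add]
  · refine wct (wc_Q hC s hs 0 _ ?_)
    rw [zero_add]
    exact wc_v hL hP

theorem v_Hop (hC : F.AxC) (k l : I) (b : B) (r : A) :
    vL (F.Hop k l b) r = F.Ψ k ((F.φ l r - F.φ k r) • b) := by
  have h1 := hC.Ψφ l r b
  have h2 := hC.Ψφ k r b
  simp [vL_apply, Hop, mOp_apply, h1, h2, sub_smul, smul_sub]

theorem part1 (hL : F.AxL) (hC : F.AxC) (hT : F.AxT) (h1 : F.F1) (h3 : F.F3a) (J : Finset I)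
    (j k l : I) (b : B) (hj : j ∈ J) (hk : k ∈ J) (hl : l ∈ J) (hb : b ∈ F.Bh J 0) :
    F.AppX J (F.Hop j l b - F.Hop j k b - F.Hop k l b, 0) := by
  intro S
  obtain ⟨N, hN, hS⟩ := hT.near j k S
  set G : A →ₗ[ℤ_[p]] B := mOp ℤ_[p] A b ∘ₗ ((F.φ l).toLinearMap - (F.φ k).toLinearMap) with hG
  have hGa : ∀ r, G r = (F.φ l r - F.φ k r) • b := fun r => rfl
  have hsub : ({j, k} : Finset I) ⊆ J := by
    intro a ha
    rcases Finset.mem_insert.1 ha with rfl | ha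
    · exact hj
    · rwa [Finset.mem_singleton.1 ha]
  have e : ((F.Hop j l b - F.Hop j k b - F.Hop k l b, 0) : (A →ₗ[ℤ_[p]] B) × (ι → B)) =
      (N ∘ₗ G, 0) + ((F.Ψ j - F.Ψ k - N) ∘ₗ G, 0) := by
    refine Prod.ext ?_ (by simp)
    ext r
    simp [Hop, mOp_apply, hGa, sub_smul]
    abel
  have a1 : ((N ∘ₗ G, 0) : (A →ₗ[ℤ_[p]] B) × (ι → B)) ∈ AX F J := by
    clear hS e
    induction hN using Submodule.span_induction with
    | mem N hN =>
      obtain ⟨s, hne, hs, a, ha, rfl⟩ := hN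
      have hab := hL.smulH J _ _ a b (hL.monoA _ _ _ hsub ha) hb
      rw [add_zero] at hab
      have := appQ hL hC h1 s hne (fun a h => hsub (hs a h)) (h3.2.1 J k l _ _ hk hl hab)
      rw [Prod.smul_mk, smul_zero] at this
      have e : F.Qw s ∘ₗ vL (F.Hop k l (a • b)) = (F.Qw s ∘ₗ F.Ψ k ∘ₗ mulL ℤ_[p] B a) ∘ₗ G := by
        ext r
        rw [LinearMap.comp_apply, v_Hop hC, smul_comm]
        rfl
      rwa [e, ← LinearMap.smul_comp] at this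
    | zero => exact Submodule.zero_mem _
    | add x y _ _ hx hy =>
      have := Submodule.add_mem _ hx hy
      rwa [Prod.mk_add_mk, add_zero, ← LinearMap.add_comp] at this
    | smul c x _ hx =>
      have := Submodule.smul_mem _ c hx
      rwa [Prod.smul_mk, smul_zero, ← LinearMap.smul_comp] at this
  rw [e]
  refine Submodule.add_mem _ (mem_AX.1 a1 S) (Submodule.mem_sup_right (wct ?_))
  intro J' h w' r hr
  rw [zero_add]
  refine hS J' (h hj) (h hk) w' (G r) ?_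
  have := hL.smulH J' _ _ _ b (Submodule.sub_mem _ (hC.φmem J' l w' r (h hl) hr)
    (hC.φmem J' k w' r (h hk) hr)) (hL.monoH _ _ _ h hb)
  rwa [add_zero] at this

/-- the defect -/
def Df (F : FrameData p A B Γ I ι σ) (j k : I) :
    ((A →ₗ[ℤ_[p]] B) × (ι → B)) →ₗ[ℤ_[p]] ((A →ₗ[ℤ_[p]] B) × (ι → B)) :=
  F.ΨLt j - F.ΨLt k - LinearMap.inl ℤ_[p] _ _ ∘ₗ F.Hop j k ∘ₗ F.dLt

theorem Df_apply (j k : I) (z : (A →ₗ[ℤ_[p]] B) × (ι → B)) :
    Df F j k z = F.ΨLt j z - F.ΨLt k z - (F.Hop j k (F.dLt z), 0) := rfl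

theorem nu_one : (p : ℤ_[p]) ^ nu 1 = p := pow_one _

theorem df_th (hL : F.AxL) (hC : F.AxC) (h1 : F.F1) (h3 : F.F3a) {J : Finset I} {j k : I}
    (hj : j ∈ J) (hk : k ∈ J) (i : ι) {β : B} (hβ : β ∈ F.Bh J 0) :
    Df F j k (0, Pi.single i β) ∈ AX F J := by
  have h := transfer (F := F) (J := J) (w := 0)
    ((-LinearMap.llcomp ℤ_[p] A B B ((F.th i).restrictScalars ℤ_[p])).prod
      (LinearMap.single ℤ_[p] (fun _ : ι => B) i ∘ₗ LinearMap.applyₗ (1 : A))) 1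
    (fun l P hP => ?_) (fun S P hP => ?_)
    (h3.2.1 J j k 0 β hj hk (by rwa [smul_zero]))
  · rw [nu_one] at h
    refine (congrArg (· ∈ AX F J) ?_).mp h
    have hd : F.dLt (0, Pi.single i β) = F.th i β := by
      show (0 : A →ₗ[ℤ_[p]] B) 1 + ∑ i', F.th i' ((Pi.single i β : ι → B) i') = _
      rw [Finset.sum_eq_single i] <;> simp +contextual
    rw [Df_apply, hd]
    refine Prod.ext ?_ ?_
    · ext r
      have e : ∀ j', F.Ψ j' (F.φ k r • F.th i β) =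
          (p : ℤ_[p]) • F.th i (F.Ψ j' (F.φ k r • β)) := fun j' => by
        rw [← hC.Ψth, (F.th i).map_smul]
      simp [ΨLt, Hop, mOp_apply, e, smul_sub]
    · funext i'
      by_cases hi : i' = i
      · subst hi
        simp [ΨLt, Hop, mOp_apply, smul_sub]
      · simp [ΨLt, hi]
  · rcases Nat.eq_zero_or_pos l with rfl | hn
    · rw [h1.2.1] at hP
      rw [(Submodule.mem_bot _).1 hP, map_zero]
      exact Submodule.zero_mem _
    · exact Submodule.subset_span (Or.inr ⟨i, l, hn, le_rfl, P, hP, rfl⟩)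
  · refine ⟨Submodule.neg_mem _ fun J' h w' r hr => ?_, fun i' _ => ?_⟩
    · obtain ⟨c, hc, e⟩ := mem_sm.1 (hP J' h w' r hr)
      refine mem_sm.2 ⟨F.th i c, hL.thH i J' _ c hc, ?_⟩
      show _ = (F.th i).restrictScalars ℤ_[p] (P r)
      rw [← e, map_smul]
      rfl
    · show (Pi.single i (P 1) : ι → B) i' ∈ _
      have := hP J le_rfl 0 1 (hL.one J)
      rw [add_zero] at this
      by_cases hi : i' = i
      · subst hi
        rwa [Pi.single_eq_same]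
      · rw [Pi.single_eq_of_ne hi]
        exact Submodule.zero_mem _

theorem xpow (hL : F.AxL) (hC : F.AxC) {J : Finset I} {j : I} (hj : j ∈ J) (i : σ j) (n : ℕ) :
    F.x j i ^ n ∈ F.Ar J (n • F.wt j i) := by
  induction n with
  | zero => simpa using hL.one J
  | succ n ih =>
    rw [pow_succ, succ_nsmul]
    exact hL.mul J _ _ _ _ ih (hC.xmem J j i hj)

theorem word_d (hL : F.AxL) (hC : F.AxC) (h1 : F.F1) {J : Finset I} {k : I} (hk : k ∈ J) (l : σ k)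
    {w : Γ} {t : ℕ} {P : A →ₗ[ℤ_[p]] B} (hP : F.Word J w t P) : ∀ w0, w = w0 + F.wt k l →
      P ∘ₗ F.d k l ∈ (F.L J w0 (t + 1)).map vL ∧
        (w0 = 0 → ((P ∘ₗ F.d k l, 0) : (A →ₗ[ℤ_[p]] B) × (ι → B)) ∈ F.X J (t + 1)) := by
  induction hP with
  | base j i w t b hj hb =>
    rintro w0 rfl
    have h : mOp ℤ_[p] A b ∘ₗ F.d k l ∈ (F.L J (w0 + F.wt j i) (t + 1)).map vL := by
      refine ⟨F.D k l ∘ₗ mOp ℤ_[p] A b, base_mem hk (by rwa [add_right_comm]), ?_⟩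
      ext r
      simp [vL_apply, mOp_apply, hC.Dsmul k l r b]
    exact ⟨dv hL h1 hj h, fun e => gen1 h1 hj (e ▸ h)⟩
  | step j i w t P hj _ ih =>
    rintro w0 rfl
    have h := (ih (w0 + F.wt j i) (add_right_comm _ _ _)).1
    exact ⟨dv hL h1 hj h, fun e => gen1 h1 hj (e ▸ h)⟩

theorem app_d (hL : F.AxL) (hC : F.AxC) (h1 : F.F1) {J : Finset I} {k : I} (hk : k ∈ J) (l : σ k)
    {R : A →ₗ[ℤ_[p]] B} (hR : F.AppL J (F.wt k l) R) :
    (p : ℤ_[p]) • ((R ∘ₗ F.d k l, 0) : (A →ₗ[ℤ_[p]] B) × (ι → B)) ∈ AX F J := by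
  have h := transfer (F := F) (J := J)
    (LinearMap.inl ℤ_[p] _ (ι → B) ∘ₗ LinearMap.lcomp ℤ_[p] B (F.d k l)) 1
    (fun t P hP => ?_) (fun S P hP => ?_) hR
  · rwa [nu_one] at h
  · induction hP using Submodule.span_induction with
    | mem P hP =>
      obtain ⟨t', ht, hP⟩ := hP
      exact h1.2.2.2.2.2.2.2.2.2.1 J J _ _ le_rfl (by omega)
        ((word_d hL hC h1 hk l hP 0 (zero_add _).symm).2 rfl)
    | zero => rw [map_zero]; exact Submodule.zero_mem _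
    | add x y _ _ hx hy => rw [map_add]; exact Submodule.add_mem _ hx hy
    | smul c x _ hx => rw [map_smul]; exact Submodule.smul_mem _ c hx
  · refine wct fun J' h w' r hr => ?_
    have := hP J' h _ _ (hC.dmem J' k l w' r (h hk) hr)
    rwa [show F.wt k l + (w' - F.wt k l) = 0 + w' by abel] at this

theorem pair_sub {J : Finset I} {j k : I} (hj : j ∈ J) (hk : k ∈ J) : ({j, k} : Finset I) ⊆ J := by
  intro a ha
  rcases Finset.mem_insert.1 ha with rfl | ha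
  · exact hj
  · rwa [Finset.mem_singleton.1 ha]

theorem df_own (hL : F.AxL) (hC : F.AxC) (hT : F.AxT) (h1 : F.F1) (h3 : F.F3a) {J : Finset I}
    {j k : I} (hj : j ∈ J) (hk : k ∈ J) (i : σ j) {b : B} (hb : b ∈ F.Bh J (F.wt j i)) :
    Df F j k (F.D j i ∘ₗ mOp ℤ_[p] A b, 0) ∈ AX F J := by
  obtain ⟨ρ, hρ, hd, -⟩ := hT.trans k j i
  have hp : p - 1 + 1 = p := Nat.sub_add_cancel (Fact.out : p.Prime).one_le
  have b1 : F.x j i ^ (p - 1) • b ∈ F.Bh J (p • F.wt j i) := by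
    have := hL.smulH J _ _ _ b (xpow hL hC hj i (p - 1)) hb
    rwa [← succ_nsmul, hp] at this
  have b2 : ∀ l, (ρ l * F.x k l ^ (p - 1)) • b ∈ F.Bh J (p • F.wt k l) := by
    intro l
    have := hL.smulH J _ _ _ b (hL.mul J _ _ _ _ (hL.monoA _ _ _ (pair_sub hk hj) (hρ l))
      (xpow hL hC hk l (p - 1))) hb
    rwa [show F.wt k l - F.wt j i + (p - 1) • F.wt k l + F.wt j i =
      (p - 1) • F.wt k l + F.wt k l by abel, ← succ_nsmul, hp] at this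
  have a1 := appQ hL hC h1 [⟨j, i⟩] (by simp) (by simpa using hj)
    (R := F.Hop j k (F.x j i ^ (p - 1) • b)) (by simpa using h3.2.1 J j k _ _ hj hk b1)
  rw [List.length_singleton, nu_one] at a1
  have a2 := Submodule.sum_mem (AX F J) (t := Finset.univ) fun l _ =>
    app_d hL hC h1 hk l (h3.2.1 J j k _ _ hj hk (b2 l))
  refine (congrArg (· ∈ AX F J) ?_).mp (Submodule.sub_mem _ a2 a1)
  rw [Df_apply]
  refine Prod.ext ?_ (by simp [ΨLt, Prod.snd_sum])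
  ext r
  have e1 : F.φ k r • F.D j i b = F.D j i (F.φ k r • b) - F.d j i (F.φ k r) • b := by
    rw [hC.Dsmul]; abel
  have e2 : F.d j i (F.φ k r) • b =
      ∑ l, (p : ℤ_[p]) • (F.φ k (F.d k l r) • (ρ l * F.x k l ^ (p - 1)) • b) := by
    rw [hd, Finset.sum_smul]
    refine Finset.sum_congr rfl fun l _ => ?_
    rw [hC.dφ, smul_smul, ← algebraMap_smul A (p : ℤ_[p]), smul_smul, map_natCast]
    congr 1
    ring
  have e3 : ∀ a : A, F.Ψ j (F.D j i (a • b)) =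
      (p : ℤ_[p]) • F.D j i (F.Ψ j (a • F.x j i ^ (p - 1) • b)) := fun a => by
    rw [hC.ΨD, smul_comm a]
  have e4 : F.dLt (F.D j i ∘ₗ mOp ℤ_[p] A b, 0) = F.D j i b := by simp [dLt, mOp_apply]
  rw [e4]
  simp only [Prod.fst_sub, Prod.fst_sum, Prod.smul_fst, LinearMap.sub_apply, LinearMap.sum_apply,
    LinearMap.smul_apply, LinearMap.comp_apply, Qw, List.foldr, LinearMap.id_apply, v_Hop hC]
  simp [ΨLt, ΨL, Hop, mOp_apply, e1, e2, e3, sub_smul, smul_sub, Finset.sum_sub_distrib]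
  abel

theorem df_base (hL : F.AxL) (hC : F.AxC) (hT : F.AxT) (h1 : F.F1) (h3 : F.F3a) {J : Finset I}
    {j k j' : I} (hj : j ∈ J) (hk : k ∈ J) (hj' : j' ∈ J) (i : σ j') {b : B}
    (hb : b ∈ F.Bh J (F.wt j' i)) : Df F j k (F.D j' i ∘ₗ mOp ℤ_[p] A b, 0) ∈ AX F J := by
  obtain ⟨ρ, hρ, -, hD⟩ := hT.trans j j' i
  have e : ((F.D j' i ∘ₗ mOp ℤ_[p] A b, 0) : (A →ₗ[ℤ_[p]] B) × (ι → B)) =
      ∑ l, (F.D j l ∘ₗ mOp ℤ_[p] A (ρ l • b), 0) := by
    refine Prod.ext ?_ (by simp [Prod.snd_sum])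
    ext r
    simp only [Prod.fst_sum, LinearMap.sum_apply, LinearMap.comp_apply, mOp_apply, hD,
      smul_comm r]
  rw [e, map_sum]
  refine Submodule.sum_mem _ fun l _ => df_own hL hC hT h1 h3 hj hk l ?_
  have := hL.smulH J _ _ _ b (hL.monoA _ _ _ (pair_sub hj hj') (hρ l)) hb
  rwa [sub_add_cancel] at this

theorem df_L (hL : F.AxL) (hC : F.AxC) (hT : F.AxT) (h1 : F.F1) (h3 : F.F3a) {J : Finset I}
    {j k : I} (hj : j ∈ J) (hk : k ∈ J) {m : ℕ} {P : A →ₗ[ℤ_[p]] B} (hP : P ∈ F.L J 0 m) :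
    Df F j k (P, 0) ∈ AX F J := by
  show (Df F j k ∘ₗ LinearMap.inl ℤ_[p] _ (ι → B)) P ∈ _
  induction hP using Submodule.span_induction with
  | mem P hP =>
    obtain ⟨t, -, hP⟩ := hP
    cases hP with
    | base j' i _ t b hj' hb =>
      exact df_base hL hC hT h1 h3 hj hk hj' i (by simpa using hL.le _ _ _ hb)
    | step j' i _ t P hj' hP =>
      have hP' : P ∈ F.L J (0 + F.wt j' i) t := Submodule.subset_span ⟨t, le_rfl, hP⟩
      have hx := gen1 h1 hj' ⟨P, hP', rfl⟩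
      have e : F.D j' i ∘ₗ P = F.D j' i ∘ₗ vL P + F.D j' i ∘ₗ mOp ℤ_[p] A (P 1) := by
        ext r
        simp [vL_apply, mOp_apply]
      rw [e, map_add]
      refine Submodule.add_mem _ ?_
        (df_base hL hC hT h1 h3 hj hk hj' i (by simpa using hL.le _ _ _ (one_mem hL h1 hP')))
      show Df F j k (F.D j' i ∘ₗ vL P, 0) ∈ _
      rw [Df_apply, h1.2.2.2.2.2.2.2.2.1 J _ _ hx, map_zero, Prod.mk_zero_zero, sub_zero]
      exact Submodule.sub_mem _ (mem_AX.2 (h3.2.2 J j _ _ hj hx)) (mem_AX.2 (h3.2.2 J k _ _ hk hx))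
  | zero => rw [map_zero]; exact Submodule.zero_mem _
  | add x y _ _ hx hy => rw [map_add]; exact Submodule.add_mem _ hx hy
  | smul c x _ hx => rw [map_smul]; exact Submodule.smul_mem _ c hx

end F3bAux

open F3bAux

theorem rowF3b : RowF3b := by
  intro p _ A B Γ I ι σ _ _ _ _ _ _ _ _ _ _ _ _ _ F hL hC hT h1 h3
  refine ⟨part1 hL hC hT h1 h3, fun J j k m z hj hk hz => ?_⟩
  rw [← Df_apply, ← mem_AX]
  have e : z = (z.1, 0) + ∑ i, (0, Pi.single i (z.2 i)) := by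
    refine Prod.ext (by simp [Prod.fst_sum]) ?_
    simp [Prod.snd_sum, Finset.univ_sum_single]
  rw [e, map_add, map_sum]
  refine Submodule.add_mem _ (df_L hL hC hT h1 h3 hj hk hz.1)
    (Submodule.sum_mem _ fun i _ => df_th hL hC h1 h3 hj hk i ?_)
  have h := hz.2 i (Set.mem_univ i)
  by_cases hm : m = 0
  · simp only [hm, if_true, SetLike.mem_coe, Submodule.mem_bot] at h
    rw [h]
    exact Submodule.zero_mem _
  · simp only [hm, if_false] at h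
    exact hL.le _ _ _ h

end

end Pool.Agent.MP_ea150c_mp.H99
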