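import Pool.Agent.MP_ea150c_mp.H49.SpecG
import Pool.Agent.MP_ea150c_mp.H45.S1pShiftEx

/-! Matrix entries of the Dwork operator and traces of approximations. -/

set_option autoImplicit false

namespace Pool.Agent.MP_ea150c_mp.H99

open Pool.Agent.MP_ea150c_mp.H49 Pool.Agent.MP_ea150c_mp.H45

noncomputable section

namespace G4Aux

theorem tr_congr {O V N : Type} [CommRing O] [AddCommGroup V] [Module O V] [Fintype N]
    [DecidableEq N] (e : V ≃ₗ[O] (N → O)) (Φ : V →ₗ[O] V) (A : Matrix N N O) (c : O)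
    (h : ∀ a b, c ∣ e (Φ (e.symm (Pi.single b 1))) a - A a b) (k : ℕ) :
    c ∣ LinearMap.trace O V (Φ ^ k) - Matrix.trace (A ^ k) := by
  rw [LinearMap.trace_eq_matrix_trace O (Module.Basis.ofEquivFun e), ← LinearMap.toMatrix_pow,
    ← Ideal.mem_span_singleton, ← Ideal.Quotient.eq, AddMonoidHom.map_trace, AddMonoidHom.map_trace]
  have h1 : (Ideal.Quotient.mk (Ideal.span {c})).mapMatrix
      (LinearMap.toMatrix (Module.Basis.ofEquivFun e) (Module.Basis.ofEquivFun e) Φ) =
      (Ideal.Quotient.mk (Ideal.span {c})).mapMatrix A := by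
    ext a b
    simp only [RingHom.mapMatrix_apply, Matrix.map_apply]
    rw [Ideal.Quotient.eq, Ideal.mem_span_singleton, LinearMap.toMatrix_apply,
      Module.Basis.ofEquivFun_repr_apply, Module.Basis.coe_ofEquivFun]
    exact h a b
  rw [← RingHom.mapMatrix_apply, ← RingHom.mapMatrix_apply, map_pow, map_pow, h1]

section Key
variable {O σ ι A : Type} [CommRing O] [AddCommGroup A] [Module O A] [Fintype ι] [DecidableEq ι]
  {tor : σ → Bool}

theorem key (P : (σ → ℤ) → (ι → ℕ) → Prop) (V : Submodule O (PS ι A)) (χ : A →ₗ[O] Tor O tor)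
    (χ' : Tor O tor →ₗ[O] A) (h1 : ∀ a, χ' (χ a) = a) (h2 : ∀ z, χ (χ' z) = z) (sh : σ → ℤ)
    (N : Finset ((σ → ℤ) × (ι → ℕ))) [dN : DecidableEq N]
    (hN : ∀ a, a ∈ N ↔ a.1 + sh ∈ Mon tor ∧ P (a.1 + sh) a.2)
    (hV : ∀ b, b ∈ V ↔ ∀ l, χ (b l) ∈ supp tor O fun u => P u l) (Φ : V →ₗ[O] V)
    (Mx : (σ → ℤ) × (ι → ℕ) → (σ → ℤ) × (ι → ℕ) → O) (c : O)
    (h : ∀ (a b : (σ → ℤ) × (ι → ℕ)) (u' u : Mon tor) (β : V), u'.1 = a.1 + sh → u.1 = b.1 + sh →
      (β : PS ι A) = Pi.single b.2 (χ' (AddMonoidAlgebra.single u 1)) →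
      c ∣ (χ ((Φ β : PS ι A) a.2)).coeff u' - Mx a b) (k : ℕ) :
    c ∣ LinearMap.trace O V (Φ ^ k) - Matrix.trace ((Matrix.of fun a b : N => Mx a.1 b.1) ^ k) := by
  classical
  let ex : N → Mon tor := fun a => ⟨a.1.1 + sh, ((hN _).1 a.2).1⟩
  let co : V →ₗ[O] (N → O) :=
    { toFun := fun b a => (χ ((b : PS ι A) a.1.2)).coeff (ex a)
      map_add' := fun _ _ => by ext; simp
      map_smul' := fun _ _ => by ext; simp }
  have hβ : ∀ b : N, (Pi.single b.1.2 (χ' (AddMonoidAlgebra.single (ex b) 1)) : PS ι A) ∈ V := by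
    intro b
    refine (hV _).2 fun l => ?_
    by_cases hl : l = b.1.2
    · subst hl
      rw [Pi.single_eq_same, h2]
      exact single_mem_supp _ _ ((hN _).1 b.2).2
    · rw [Pi.single_eq_of_ne hl, map_zero]
      exact zero_mem _
  have hco : ∀ b : N, co ⟨_, hβ b⟩ = Pi.single b 1 := by
    intro b
    funext a
    show (χ ((Pi.single b.1.2 (χ' (AddMonoidAlgebra.single (ex b) 1)) : PS ι A) a.1.2)).coeff
      (ex a) = _
    by_cases hab : a = b
    · subst hab
      simp [h2]
    · rw [Pi.single_eq_of_ne hab]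
      by_cases hl : a.1.2 = b.1.2
      · rw [hl, Pi.single_eq_same, h2, AddMonoidAlgebra.coeff_single, Finsupp.single_apply, if_neg]
        intro e
        exact hab (Subtype.ext (Prod.ext (add_right_cancel (congrArg Subtype.val e)).symm hl))
      · rw [Pi.single_eq_of_ne hl, map_zero]
        rfl
  have hinj : Function.Injective co := by
    refine (injective_iff_map_eq_zero co).2 fun b hb => Subtype.ext (funext fun l => ?_)
    have : χ ((b : PS ι A) l) = 0 := by
      ext u
      by_contra hu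
      have hm : (u.1 - sh, l) ∈ N := (hN _).2 (by
        simp only [sub_add_cancel]
        exact ⟨u.2, (hV _).1 b.2 l u hu⟩)
      have h3 := congrFun hb ⟨_, hm⟩
      have e : ex ⟨_, hm⟩ = u := Subtype.ext (sub_add_cancel _ _)
      rw [← e] at hu
      exact hu h3
    rw [← h1 ((b : PS ι A) l), this, map_zero]
    rfl
  have hsurj : Function.Surjective co := by
    intro x
    refine ⟨∑ b, x b • ⟨_, hβ b⟩, ?_⟩
    rw [map_sum]
    simp only [map_smul, hco]
    funext a
    simp [Finset.sum_apply, Pi.single_apply]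
  refine tr_congr (LinearEquiv.ofBijective co ⟨hinj, hsurj⟩) Φ _ c (fun a b => ?_) k
  have e : (LinearEquiv.ofBijective co ⟨hinj, hsurj⟩).symm (Pi.single b 1) = ⟨_, hβ b⟩ :=
    (LinearEquiv.symm_apply_eq _).2 (hco b).symm
  rw [e]
  exact h a.1 b.1 (ex a) (ex b) _ rfl rfl rfl

end Key

section Incl
variable {σ : Type} (tor : σ → Bool) (Λ : Type) [CommRing Λ]

/-- exponents as exponents of the full torus -/
def inM : Mon tor →+ Mon (fun _ : σ => true) :=
  AddSubmonoid.inclusion fun _ _ _ h => by simp at h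

/-- the inclusion into the full Laurent ring -/
def incl : Tor Λ tor →ₐ[Λ] Tor Λ (fun _ : σ => true) :=
  AddMonoidAlgebra.mapDomainAlgHom Λ Λ (inM tor)

theorem incl_single (u : Mon tor) (c : Λ) :
    incl tor Λ (AddMonoidAlgebra.single u c) = AddMonoidAlgebra.single (inM tor u) c := by
  simp [incl]

theorem incl_phi (p : ℕ) (a : Tor Λ tor) :
    incl tor Λ (phi0 tor Λ p a) = phi0 _ Λ p (incl tor Λ a) := by
  induction a using AddMonoidAlgebra.induction_linear with
  | zero => simp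
  | add a b ha hb => simp only [map_add, ha, hb]
  | single u c => rw [phi0_single, incl_single, incl_single, phi0_single, map_nsmul]

theorem coeff_psi (p : ℕ) (hp : 1 ≤ p) (K : Tor Λ tor) (v u' : Mon tor)
    (n : Mon fun _ : σ => true) (hn : ∀ x, n.1 x = p * (u'.1 x + 1) - (v.1 x + 1)) :
    (psi0 tor Λ p (K * AddMonoidAlgebra.single v 1)).coeff u' = (incl tor Λ K).coeff n := by
  classical
  induction K using AddMonoidAlgebra.induction_linear with
  | zero => simp
  | add a b ha hb => simp only [add_mul, map_add, AddMonoidAlgebra.coeff_add, Finsupp.add_apply, ha, hb]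
  | single t c =>
    have hp0 : (p : ℤ) ≠ 0 := by omega
    rw [AddMonoidAlgebra.single_mul_single, mul_one, psi0, linOf_single, incl_single,
      AddMonoidAlgebra.coeff_single, Finsupp.single_apply]
    by_cases e : inM tor t = n
    · have e1 : ∀ x, (t + v).1 x + 1 = p * (u'.1 x + 1) := fun x => by
        have h1 : t.1 x = n.1 x := congrFun (congrArg Subtype.val e) x
        have h2 : (t + v).1 x = t.1 x + v.1 x := rfl
        rw [h2, h1, hn]; ring
      have e2 : (fun x => ((t + v).1 x + 1) / (p : ℤ) - 1) = u'.1 := by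
        funext x
        rw [e1, Int.mul_ediv_cancel_left _ hp0, add_sub_cancel_right]
      rw [if_pos e, if_pos fun x => ⟨_, e1 x⟩, e2, monoZ, dif_pos u'.2]
      simp
    · rw [if_neg e]
      split_ifs with h
      · unfold monoZ
        split_ifs with h'
        · rw [← single_eq_smul, AddMonoidAlgebra.coeff_single, Finsupp.single_apply, if_neg]
          intro e'
          refine e (Subtype.ext (funext fun x => ?_))
          have h1 : ((t + v).1 x + 1) / (p : ℤ) - 1 = u'.1 x := congrFun (congrArg Subtype.val e') x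
          have h2 : (t + v).1 x = t.1 x + v.1 x := rfl
          have h3 := Int.mul_ediv_cancel' (h x)
          show t.1 x = n.1 x
          rw [hn, ← h1, sub_add_cancel, h3, h2]; ring
        · simp
      · simp

variable [DecidableEq σ] [Fintype σ]

theorem incl_tX (i : σ) : incl tor Λ (tX tor Λ i) = tX _ Λ i := by
  simp only [tX, monoZ, dif_pos (single_mem tor i), dif_pos (single_mem (fun _ : σ => true) i),
    incl_single]
  rfl

theorem incl_ofPoly (f : MvPolynomial σ ℤ) : incl tor Λ (ofPoly tor Λ f) = ofPoly _ Λ f := by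
  have : (incl tor Λ : Tor Λ tor →+* Tor Λ fun _ : σ => true).comp (ofPoly tor Λ) = ofPoly _ Λ :=
    MvPolynomial.ringHom_ext (fun r => by simp) fun i => by simp [ofPoly, incl_tX]
  exact DFunLike.congr_fun this f

end Incl

section Ent
variable {p : ℕ} [Fact p.Prime] {σ ι : Type} [Fintype σ] [DecidableEq σ] [Fintype ι]
  [DecidableEq ι] (tor : σ → Bool)

theorem incl_divp (s1p : S1p) (f : Tor ℤ_[p] tor) :
    incl tor ℤ_[p] (divp p (f ^ p - phi0 tor ℤ_[p] p f)) =
      divp p (incl tor ℤ_[p] f ^ p - phi0 _ ℤ_[p] p (incl tor ℤ_[p] f)) := by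
  refine sub_eq_zero.1 ((s1p p σ _).1 _ ?_)
  have h := congrArg (incl tor ℤ_[p]) ((s1p p σ tor).2.1 f)
  rw [map_mul, map_natCast, map_sub, map_pow, incl_phi] at h
  rw [mul_sub, h, (s1p p σ _).2.1, sub_self]

theorem map_Ker {A A' : Type} [CommRing A] [Algebra ℤ_[p] A] [CommRing A'] [Algebra ℤ_[p] A']
    (g : A →ₐ[ℤ_[p]] A') (f G : ι → A) (l' l : ι → ℕ) :
    g (Ker p f G l' l) = Ker p (fun i => g (f i)) (fun i => g (G i)) l' l := by
  simp [Ker, kap]

theorem Ker_out {A : Type} [CommRing A] [Algebra ℤ_[p] A] (f G : ι → A) (l' l : ι → ℕ)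
    (h : l ∉ Fintype.piFinset fun i => Finset.range (p * (l' i + 1))) : Ker p f G l' l = 0 := by
  rw [Fintype.mem_piFinset] at h
  obtain ⟨i, hi⟩ := not_forall.1 h
  rw [Finset.mem_range] at hi
  refine Finset.prod_eq_zero (Finset.mem_univ i) (Finset.sum_eq_zero fun j _ => ?_)
  have h1 : kq p (l' i) (l i) j = 0 := if_neg (by omega)
  have h2 : kc p (l' i) (l i) j = 0 := by
    unfold kc
    split_ifs
    · exact Subtype.ext (by simp [h1])
    · rfl
  rw [h2, zero_smul]

theorem coeff_stdPsi (s1p : S1p) (fp : ι → MvPolynomial σ ℤ) (a b : (σ → ℤ) × (ι → ℕ))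
    (v u' : Mon tor) (hn : ∀ x, p * a.1 x - b.1 x = p * (u'.1 x + 1) - (v.1 x + 1)) :
    (stdPsi p tor (fun i => ofPoly tor ℤ_[p] (fp i))
      (Pi.single b.2 (AddMonoidAlgebra.single v 1)) a.2).coeff u' = ent p fp a b := by
  have hp : 1 ≤ p := (Fact.out : p.Prime).one_le
  have e : stdPsi p tor (fun i => ofPoly tor ℤ_[p] (fp i))
      (Pi.single b.2 (AddMonoidAlgebra.single v 1)) a.2 =
      psi0 tor ℤ_[p] p (Ker p (fun i => ofPoly tor ℤ_[p] (fp i)) (fun i => divp p
        (ofPoly tor ℤ_[p] (fp i) ^ p - phi0 tor ℤ_[p] p (ofPoly tor ℤ_[p] (fp i)))) a.2 b.2 *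
        AddMonoidAlgebra.single v 1) := by
    show ∑ l ∈ _, psi0 tor ℤ_[p] p (_ * (Pi.single b.2 (AddMonoidAlgebra.single v 1) :
      PS ι (Tor ℤ_[p] tor)) l) = _
    rw [Finset.sum_eq_single b.2, Pi.single_eq_same]
    · intro l _ hl
      rw [Pi.single_eq_of_ne hl, mul_zero, map_zero]
    · intro h
      rw [Ker_out _ _ _ _ h, zero_mul, map_zero]
  rw [e, coeff_psi tor ℤ_[p] p hp _ v u' ⟨(p : ℤ) • a.1 - b.1, fun _ h => by simp at h⟩ hn, map_Ker]
  simp only [incl_divp tor s1p, incl_ofPoly]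
  rfl

end Ent

end G4Aux

end

end Pool.Agent.MP_ea150c_mp.H99
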